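import Pool.Agent.H21.L.R_pool_sql_team_seeded_2aa45f1a.Q5.DC.Law
import Pool.Agent.H21.L.R_pool_sql_team_seeded_2aa45f1a.Q5.DC.JLaw
import Pool.Agent.H21.L.R_pool_sql_team_seeded_9f66d723.W5h26.ML.Sharp

/-!
# Real linear combinations of error terms: the limit law
-/

set_option autoImplicit false

open MeasureTheory Filter Topology Set Complex

namespace Pool.Agent.H21.RH

open Pool.Agent.TH270.MS (BM LI one_le_log)
open Pool.Agent.Q5.BP (BSq MSq bm_log)
open Pool.Agent.Q5.AP (Par cut cut_of cut_le cut_l2 cm cm_zero dist_of M MR par_zero)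
open Pool.Agent.Q5.OM (mn mn_cov)
open Pool.Agent.Q5.DC
open Pool.Agent.W5h26.ML (Law law_mono law_add)

/-- the logarithmic means of `|D|` tend to `0` -/
def MeanZero (D : ℝ → ℝ) : Prop :=
  Tendsto (fun X : ℝ => (∫ x in Real.exp 1..X, |D x| / x) / Real.log X) atTop (𝓝 0)

/-- the limit law with a real function `mu` in the place of the multiplicities -/
def LawR (mu : ℝ → ℝ) (δ : ℝ → ℝ) : Prop :=
  ∃ ν : Measure ℝ, (IsLimitLaw δ ν ∧ ∀ ν' : Measure ℝ, IsLimitLaw δ ν' → ν' = ν) ∧
    Integrable (fun y : ℝ => y ^ 2) ν ∧ ∫ y, y ∂ν = 0 ∧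
    HasSum (fun t : ℝ => (mu t / t) ^ 2) (∫ y, y ^ 2 ∂ν) ∧
    Tendsto (fun X : ℝ => (∫ x in Real.exp 1..X, (Real.log x * δ x) ^ 2 / x) / Real.log X) atTop
      (𝓝 (∫ y, y ^ 2 ∂ν)) ∧
    ∀ c : ℝ, ν {c} = 0 → Tendsto (shareAbove δ c) atTop (𝓝 (ν.real (Ioi c)))

/-! ### linear combinations -/

theorem par_lin' {ι : Type} {g : ι → ℝ → ℝ} {a : ι → ℝ → ℂ} {V : ι → ℝ}
    (h : ∀ i, Par (fun u => (g i u : ℂ)) (a i) (V i)) (ξ : ι → ℝ) (s : Finset ι) :
    ∃ U : ℝ, Par (fun u => ((∑ i ∈ s, ξ i * g i u : ℝ) : ℂ))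
      (fun t => ∑ i ∈ s, (ξ i : ℂ) * a i t) U := by
  classical
  induction s using Finset.induction_on with
  | empty => exact ⟨_, by simpa only [Finset.sum_empty, Complex.ofReal_zero] using par_zero⟩
  | insert i s hi ih =>
    obtain ⟨U, hP⟩ := ih
    have h1 := ((h i).smul_real (ξ i)).add hP
    exact ⟨_, by simpa only [Finset.sum_insert hi, Complex.ofReal_add] using h1⟩

/-- the means over `[e, X]` of the square -/
theorem ms_conv {W : ℝ → ℝ} {a : ℝ → ℂ} {V : ℝ}
    (P : Par (fun u => (cut W u : ℂ)) a V) :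
    Tendsto (fun X : ℝ => (∫ x in Real.exp 1..X, W x ^ 2 / x) / Real.log X) atTop (𝓝 V) := by
  have h5 : Tendsto (MR fun u => cut W u ^ 2) atTop (𝓝 V) := by
    refine P.ms.congr fun T => ?_
    congr 1
    funext u
    rw [Complex.norm_real, Real.norm_eq_abs, sq_abs]
  unfold MR at h5
  have hint : ∀ T : ℝ, 0 < T → IntervalIntegrable (fun u => cut W u ^ 2) volume 0 T := by
    intro T hT
    have h6 := P.loc.sq hT
    refine h6.congr (fun u _ => ?_)
    simp only [Complex.norm_real, Real.norm_eq_abs, sq_abs]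
  rw [Pool.Agent.Q5.BP.mean_from_one_real hint] at h5
  have h6 := h5.comp Real.tendsto_log_atTop
  refine h6.congr' ?_
  filter_upwards [eventually_ge_atTop (Real.exp 1)] with X hX
  have hX0 : 0 < X := (Real.exp_pos 1).trans_le hX
  have hl : 1 ≤ Real.log X := one_le_log hX
  have e := mn_cov (fun y => W y ^ 2) hl
  rw [Real.exp_log hX0] at e
  rw [e, Function.comp_apply]
  unfold mn
  congr 1
  refine intervalIntegral.integral_congr_ae (Eventually.of_forall fun u hu => ?_)
  rw [uIoc_of_le hl] at hu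
  rw [cut_of _ hu.1]

/-- `Par` gives the limit law -/
theorem lawR_of_par {mu : ℝ → ℝ} {δ : ℝ → ℝ} {a : ℝ → ℂ} (hW : BM fun x => Real.log x * δ x) {V : ℝ}
    (P : Par (fun u => (cut (fun x => Real.log x * δ x) u : ℂ)) a V) (h0 : a 0 = 0)
    (hn : ∀ t, ‖a t‖ ^ 2 = (mu t / t) ^ 2) : LawR mu δ := by
  obtain ⟨ν, hL, hs, h1, h2, h3⟩ := dist_of hW P
  have hlaw : IsLimitLaw δ ν := ⟨hL.prob, hL.test⟩
  have hV : HasSum (fun t : ℝ => (mu t / t) ^ 2) V := by
    have := P.pa
    simpa only [hn] using this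
  refine ⟨ν, ⟨hlaw, fun ν' h' => law_unique hlaw h'⟩, h1, ?_, ?_, ?_, fun c hc => ?_⟩
  · rw [h3, h0, Complex.zero_re]
  · rw [h2]
    exact hV
  · rw [h2]
    exact ms_conv P
  · refine (hs c hc).congr fun X => ?_
    unfold shareAbove Pool.Agent.Q5.OM.Share
    congr 2
    funext x
    split_ifs <;> simp

theorem lawR_has {mu : ℝ → ℝ} {δ : ℝ → ℝ} : LawR mu δ → HasLimitLaw δ := by
  rintro ⟨ν, ⟨h1, -⟩, h2, -, -, h3, -⟩
  exact ⟨ν, h1, h2, h3⟩

theorem bsq_of_has {δ : ℝ → ℝ} : HasLimitLaw δ → BSq δ := by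
  rintro ⟨ν, -, -, h3⟩
  refine ⟨(∫ y, y ^ 2 ∂ν) + 1, ?_⟩
  filter_upwards [h3.eventually (gt_mem_nhds (show ∫ y, y ^ 2 ∂ν < (∫ y, y ^ 2 ∂ν) + 1 by linarith)),
    eventually_gt_atTop 1] with X hX hX1
  rw [div_lt_iff₀ (Real.log_pos hX1)] at hX
  exact hX.le

/-! ### the mean law -/

/-- the integral of `1 / (x log² x)` -/
theorem int_inv {X : ℝ} (hX : Real.exp 1 ≤ X) :
    IntervalIntegrable (fun x : ℝ => x⁻¹ / Real.log x ^ 2) volume (Real.exp 1) X ∧
      ∫ x in Real.exp 1..X, x⁻¹ / Real.log x ^ 2 ≤ 1 := by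
  have hx : ∀ x ∈ uIcc (Real.exp 1) X, 0 < x ∧ 1 ≤ Real.log x := fun x hx => by
    rw [uIcc_of_le hX] at hx
    exact ⟨(Real.exp_pos 1).trans_le hx.1, one_le_log hx.1⟩
  have hd : ∀ x ∈ uIcc (Real.exp 1) X,
      HasDerivAt (fun x : ℝ => -(Real.log x)⁻¹) (x⁻¹ / Real.log x ^ 2) x := fun x hx' => by
    obtain ⟨h1, h2⟩ := hx x hx'
    have h3 := ((Real.hasDerivAt_log h1.ne').inv (by linarith : Real.log x ≠ 0)).neg
    convert! h3 using 1
    ring
  have hc : ContinuousOn (fun x : ℝ => x⁻¹ / Real.log x ^ 2) (uIcc (Real.exp 1) X) := by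
    intro x hx'
    obtain ⟨h1, h2⟩ := hx x hx'
    have h3 : ContinuousAt (fun x : ℝ => x⁻¹ / Real.log x ^ 2) x :=
      (continuousAt_inv₀ h1.ne').div ((Real.continuousAt_log h1.ne').pow 2)
        (pow_ne_zero _ (by linarith))
    exact h3.continuousWithinAt
  have hi : IntervalIntegrable (fun x : ℝ => x⁻¹ / Real.log x ^ 2) volume (Real.exp 1) X :=
    hc.intervalIntegrable
  refine ⟨hi, ?_⟩
  rw [intervalIntegral.integral_eq_sub_of_hasDerivAt hd hi, Real.log_exp]
  have : 0 < (Real.log X)⁻¹ := inv_pos.2 (by linarith [one_le_log hX])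
  rw [inv_one]
  linarith

/-- a bounded mean square of `log x · D` gives mean zero of `|D|` -/
theorem meanZero_of_bsq {D : ℝ → ℝ} (hD : BM D) (h : BSq D) : MeanZero D := by
  obtain ⟨B, hB⟩ := h
  have hW : BM fun x => Real.log x * D x := bm_log.mul hD
  unfold MeanZero
  rw [Metric.tendsto_nhds]
  intro ε hε
  set B' : ℝ := |B| + 1 with hB'
  have hB0 : 0 < B' := by positivity
  set κ : ℝ := ε / (2 * B') with hκ
  have hκ0 : 0 < κ := by positivity
  have hlog := Real.tendsto_log_atTop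
  have h2 : ∀ᶠ X : ℝ in atTop, 1 / κ / (ε / 4) + 1 ≤ Real.log X :=
    hlog.eventually_ge_atTop _
  filter_upwards [hB, h2, eventually_ge_atTop (Real.exp 1)] with X h1 h2 hX
  have hl : 1 ≤ Real.log X := one_le_log hX
  obtain ⟨i1, i2⟩ := int_inv hX
  have i3 : IntervalIntegrable (fun x => (Real.log x * D x) ^ 2 / x) volume (Real.exp 1) X :=
    hW.sq.li.div X hX
  have h3 : ∫ x in Real.exp 1..X, |D x| / x ≤
      κ / 2 * (∫ x in Real.exp 1..X, (Real.log x * D x) ^ 2 / x) +
        1 / (2 * κ) * ∫ x in Real.exp 1..X, x⁻¹ / Real.log x ^ 2 := by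
    rw [← intervalIntegral.integral_const_mul, ← intervalIntegral.integral_const_mul,
      ← intervalIntegral.integral_add (i3.const_mul _) (i1.const_mul _)]
    refine intervalIntegral.integral_mono_on hX (hD.li.abs.div X hX)
      ((i3.const_mul _).add (i1.const_mul _)) fun x hx => ?_
    have hx0 : 0 < x := (Real.exp_pos 1).trans_le hx.1
    have hlx : 1 ≤ Real.log x := one_le_log hx.1
    have hlx0 : 0 < Real.log x := by linarith
    have e1 : κ / 2 * ((Real.log x * D x) ^ 2 / x) + 1 / (2 * κ) * (x⁻¹ / Real.log x ^ 2) =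
        (κ / 2 * (Real.log x * D x) ^ 2 + 1 / (2 * κ) * (1 / Real.log x ^ 2)) / x := by
      field_simp
    rw [e1]
    refine div_le_div_of_nonneg_right ?_ hx0.le
    have e2 : κ / 2 * (Real.log x * D x) ^ 2 + 1 / (2 * κ) * (1 / Real.log x ^ 2) - |D x| =
        1 / (2 * κ) * (κ * (Real.log x * |D x|) - 1 / Real.log x) ^ 2 := by
      have : (Real.log x * D x) ^ 2 = (Real.log x * |D x|) ^ 2 := by
        rw [mul_pow, mul_pow, sq_abs]
      rw [this]
      field_simp
      ring
    have e3 : 0 ≤ 1 / (2 * κ) * (κ * (Real.log x * |D x|) - 1 / Real.log x) ^ 2 := by positivity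
    linarith
  have h4 : 0 ≤ ∫ x in Real.exp 1..X, |D x| / x := by
    refine intervalIntegral.integral_nonneg hX fun x hx => ?_
    exact div_nonneg (abs_nonneg _) ((Real.exp_pos 1).trans_le hx.1).le
  rw [dist_zero_right, Real.norm_eq_abs, abs_of_nonneg (div_nonneg h4 (by linarith)),
    div_lt_iff₀ (by linarith)]
  have h5 : κ / 2 * (∫ x in Real.exp 1..X, (Real.log x * D x) ^ 2 / x) ≤ ε / 4 * Real.log X := by
    have : (∫ x in Real.exp 1..X, (Real.log x * D x) ^ 2 / x) ≤ B' * Real.log X :=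
      h1.trans (mul_le_mul_of_nonneg_right (by rw [hB']; linarith [le_abs_self B]) (by linarith))
    calc κ / 2 * (∫ x in Real.exp 1..X, (Real.log x * D x) ^ 2 / x) ≤ κ / 2 * (B' * Real.log X) :=
          mul_le_mul_of_nonneg_left this (by positivity)
      _ = ε / 4 * Real.log X := by
          rw [hκ]
          field_simp
          ring
  have h6 : 1 / (2 * κ) * (∫ x in Real.exp 1..X, x⁻¹ / Real.log x ^ 2) ≤ 1 / (2 * κ) := by
    calc _ ≤ 1 / (2 * κ) * 1 := mul_le_mul_of_nonneg_left i2 (by positivity)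
      _ = _ := mul_one _
  have h7 : 1 / (2 * κ) ≤ ε / 4 * Real.log X := by
    have : 1 / κ / (ε / 4) ≤ Real.log X := by linarith
    rw [div_le_iff₀ (by positivity)] at this
    have h8 : 1 / (2 * κ) ≤ 1 / κ := by
      rw [div_le_div_iff₀ (by positivity) hκ0]
      linarith
    linarith
  have h9 : ε / 2 * Real.log X < ε * Real.log X := by
    have : 0 < ε * Real.log X := by positivity
    linarith
  linarith

/-- mean zero gives the bounded mean law -/
theorem law_of_meanZero {D : ℝ → ℝ} (h : MeanZero D) : Law fun y => |D y| := by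
  refine ⟨1, ?_⟩
  filter_upwards [h.eventually (gt_mem_nhds one_pos), eventually_gt_atTop 1] with X hX hX1
  rw [div_lt_iff₀ (Real.log_pos hX1)] at hX
  exact hX.le

/-- two functions with mean zero do not differ by a constant -/
theorem const_zero {D D' : ℝ → ℝ} (hD : BM D) (hD' : BM D') {κ : ℝ}
    (h : ∀ x : ℝ, Real.exp 1 ≤ x → D x = D' x + κ) (h1 : MeanZero D) (h2 : MeanZero D') : κ = 0 := by
  have h3 := h1.add h2
  rw [add_zero] at h3
  have h4 : Tendsto (fun X : ℝ => |κ| * (Real.log X - 1) / Real.log X) atTop (𝓝 |κ|) := by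
    have h5 : Tendsto (fun T : ℝ => |κ| * (1 - T⁻¹)) atTop (𝓝 (|κ| * (1 - 0))) :=
      ((tendsto_inv_atTop_zero).const_sub 1).const_mul _
    rw [sub_zero, mul_one] at h5
    refine (h5.comp Real.tendsto_log_atTop).congr' ?_
    filter_upwards [eventually_gt_atTop 1] with X hX
    have := Real.log_pos hX
    rw [Function.comp_apply]
    field_simp
  have h5 : |κ| ≤ 0 := by
    refine le_of_tendsto_of_tendsto h4 h3 ?_
    filter_upwards [eventually_ge_atTop (Real.exp 1)] with X hX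
    have hl : 1 ≤ Real.log X := one_le_log hX
    rw [← add_div]
    refine div_le_div_of_nonneg_right ?_ (by linarith)
    have i1 := hD.li.abs.div X hX
    have i2 := hD'.li.abs.div X hX
    rw [← intervalIntegral.integral_add i1 i2]
    have i0 : IntervalIntegrable (fun x : ℝ => |κ| / x) volume (Real.exp 1) X :=
      (BM.const |κ|).li.div X hX
    have e1 : ∫ x in Real.exp 1..X, |κ| / x = |κ| * (Real.log X - 1) := by
      have : (fun x : ℝ => |κ| / x) = fun x : ℝ => |κ| * x⁻¹ := by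
        funext x
        rw [div_eq_mul_inv]
      rw [this, intervalIntegral.integral_const_mul,
        integral_inv_of_pos (Real.exp_pos 1) ((Real.exp_pos 1).trans_le hX),
        Real.log_div ((Real.exp_pos 1).trans_le hX).ne' (Real.exp_pos 1).ne', Real.log_exp]
    rw [← e1]
    refine intervalIntegral.integral_mono_on hX i0 (i1.add i2) fun x hx => ?_
    have hx0 : 0 < x := (Real.exp_pos 1).trans_le hx.1
    rw [← add_div]
    refine div_le_div_of_nonneg_right ?_ hx0.le
    have e2 : κ = D x - D' x := by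
      rw [h x hx.1]
      ring
    calc |κ| = |D x - D' x| := by rw [← e2]
      _ ≤ |D x| + |D' x| := abs_sub _ _
  exact abs_nonpos_iff.1 h5

/-! ### one-sided bounds -/

/-- the integral of the cut function -/
theorem int_cut {W : ℝ → ℝ} {a : ℝ → ℂ} {V : ℝ} (P : Par (fun u => (cut W u : ℂ)) a V) (t : ℝ)
    {T : ℝ} (hT : 1 ≤ T) : ∫ u in (0 : ℝ)..T, (cut W u : ℂ) * exp (-(t * I * u)) =
      ∫ u in (1 : ℝ)..T, (W (Real.exp u) : ℂ) * exp (-(t * I * u)) := by
  have h1 : IntervalIntegrable (fun u => (cut W u : ℂ) * exp (-(t * I * u))) volume 0 T :=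
    (P.loc.exp t).int (by linarith)
  have h01 : IntervalIntegrable (fun u => (cut W u : ℂ) * exp (-(t * I * u))) volume 0 1 :=
    (P.loc.exp t).int one_pos
  have h2 := h01.symm.trans h1
  rw [← intervalIntegral.integral_add_adjacent_intervals h01 h2]
  have e1 : ∫ u in (0 : ℝ)..1, (cut W u : ℂ) * exp (-(t * I * u)) = 0 := by
    have : ∫ u in (0 : ℝ)..1, (cut W u : ℂ) * exp (-(t * I * u)) = ∫ u in (0 : ℝ)..1, (0 : ℂ) := by
      refine intervalIntegral.integral_congr fun u hu => ?_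
      rw [uIcc_of_le zero_le_one] at hu
      show (cut W u : ℂ) * exp (-(t * I * u)) = 0
      rw [cut_le _ hu.2, Complex.ofReal_zero, zero_mul]
    rw [this, intervalIntegral.integral_zero]
  rw [e1, zero_add]
  refine intervalIntegral.integral_congr_ae (Eventually.of_forall fun u hu => ?_)
  rw [uIoc_of_le hT] at hu
  rw [cut_of _ hu.1]

/-- an upper bound bounds the coefficients -/
theorem osc_le {W : ℝ → ℝ} {a : ℝ → ℂ} {V : ℝ} (hW : BM W) (P : Par (fun u => (cut W u : ℂ)) a V)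
    (h0 : a 0 = 0) {t B : ℝ} (ht : t ≠ 0) (hB : ∀ᶠ x : ℝ in atTop, W x ≤ B) : ‖a t‖ ≤ B := by
  have hco : ∀ t : ℝ, Tendsto (fun T : ℝ => (∫ u in (1 : ℝ)..T,
      (W (Real.exp u) : ℂ) * exp (-(t * I * u))) / (T : ℂ)) atTop (𝓝 (a t)) := by
    intro t
    refine (P.co t).congr' ?_
    filter_upwards [eventually_ge_atTop 1] with T hT
    unfold M
    rw [int_cut P t hT]
  refine Pool.Agent.Q5.OM.coeff_le (Pool.Agent.Q5.OM.loc_of hW) ?_ (hco t) ht
    (Real.tendsto_exp_atTop.eventually hB)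
  have h1 := (Complex.continuous_re.tendsto _).comp (hco 0)
  rw [h0, Complex.zero_re] at h1
  refine h1.congr fun T => ?_
  rw [Function.comp_apply]
  unfold mn
  have e : (fun u : ℝ => (W (Real.exp u) : ℂ) * exp (-(((0 : ℝ) : ℂ) * I * u))) =
      fun u : ℝ => ((W (Real.exp u) : ℝ) : ℂ) := by
    funext u
    simp
  rw [e, intervalIntegral.integral_ofReal, ← Complex.ofReal_div, Complex.ofReal_re]

theorem law_const {K : ℝ} (hK : 0 ≤ K) : Law fun _ => K := by
  refine ⟨K, ?_⟩
  filter_upwards [eventually_ge_atTop (Real.exp 1)] with X hX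
  have e1 : ∫ x in Real.exp 1..X, K / x = K * (Real.log X - 1) := by
    have : (fun x : ℝ => K / x) = fun x : ℝ => K * x⁻¹ := by
      funext x
      rw [div_eq_mul_inv]
    rw [this, intervalIntegral.integral_const_mul,
      integral_inv_of_pos (Real.exp_pos 1) ((Real.exp_pos 1).trans_le hX),
      Real.log_div ((Real.exp_pos 1).trans_le hX).ne' (Real.exp_pos 1).ne', Real.log_exp]
  rw [e1]
  exact mul_le_mul_of_nonneg_left (by linarith) hK

/-- a one-sided bound gives the upper law -/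
theorem law_of_upper {D : ℝ → ℝ} (hD : BM D) {B : ℝ}
    (h : ∀ᶠ x : ℝ in atTop, Real.log x * D x ≤ B) : Law fun y => max (D y) 0 := by
  obtain ⟨x₀, hx₀⟩ := eventually_atTop.1 (h.and (eventually_ge_atTop (Real.exp 1)))
  obtain ⟨M, hM⟩ := hD.2 x₀
  refine law_mono (g := fun _ => |M| + |B|) (Pool.Agent.W5h26.ML.bm_pos hD).li (BM.const _).li
    (fun y hy => max_le ?_ (by positivity)) (law_const (by positivity))
  rcases le_total y x₀ with h1 | h1
  · have := hM y hy h1
    linarith [le_abs_self (D y), le_abs_self M, abs_nonneg B]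
  · have h2 := (hx₀ y h1).1
    have hl : 1 ≤ Real.log y := one_le_log hy
    have h3 : D y ≤ |B| := by
      by_contra h4
      push Not at h4
      have h5 : |B| < Real.log y * D y := by
        have : 0 ≤ |B| := abs_nonneg B
        nlinarith
      linarith [le_abs_self B]
    linarith [abs_nonneg M]

end Pool.Agent.H21.RH
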