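import Pool.Agent.H21.RH.PackG
import Pool.Agent.H21.RD.Var
import Pool.Agent.H21.L.R_pool_sql_team_seeded_2aa45f1a.Q5.AP.ErrQ

/-!
# The data for elliptic curves over `ℚ`
-/

set_option autoImplicit false

open MeasureTheory Filter Topology Set Complex

namespace Pool.Agent.H21.RH

open Pool.Agent.TH270.MS (BM LI one_le_log Pl Mc DvR)
open Pool.Agent.TH270.MS.EQ (nQ alQ curve_mc growth_F star_close bm_star bm_product lim_iff)
open Pool.Agent.W5h26.ML (Mh)
open Pool.Agent.W263.BSD (IsLSeries bsdStar bsdProduct bsdStar_pos bsdProduct_pos)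
open Pool.Agent.Q5.BP (bm_log)
open Pool.Agent.Results.MP_92892c_nt.ExactMeanSquareRational (devStar LeadingRH mult SquareLaw ReadsZeros
  bm_devStar devStar_eq BoundedMeanSquare squares)
open Pool.Agent.Results.MP_8b7eba_nt.OneWindow (coef IsNewformOf NoZeros hecke)
open CongruenceSubgroup
open scoped MatrixGroups Classical

/-! ### means -/

/-- functions which tend to zero have mean zero -/
theorem meanZero_of_tendsto {f : ℝ → ℝ} (hf : BM f) (h : Tendsto f atTop (𝓝 0)) : MeanZero f := by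
  unfold MeanZero
  rw [Metric.tendsto_nhds]
  intro ε hε
  have h1 : ∀ᶠ x : ℝ in atTop, |f x| ≤ ε / 2 := by
    have := h.abs
    rw [abs_zero] at this
    filter_upwards [this.eventually (gt_mem_nhds (half_pos hε))] with x hx using hx.le
  obtain ⟨x₀, hx₀⟩ := eventually_atTop.1 (h1.and (eventually_ge_atTop (Real.exp 1)))
  have he : Real.exp 1 ≤ x₀ := (hx₀ x₀ le_rfl).2
  set K : ℝ := ∫ x in Real.exp 1..x₀, |f x| / x with hK
  have h2 : ∀ᶠ X : ℝ in atTop, 2 * |K| / ε + 1 ≤ Real.log X :=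
    Real.tendsto_log_atTop.eventually_ge_atTop _
  filter_upwards [h2, eventually_ge_atTop x₀] with X h2 hX
  have hXe : Real.exp 1 ≤ X := he.trans hX
  have hl : 1 ≤ Real.log X := one_le_log hXe
  have i1 := hf.li.abs.div x₀ he
  have i2 := hf.li.abs.div X hXe
  have h3 : 0 ≤ ∫ x in Real.exp 1..X, |f x| / x :=
    intervalIntegral.integral_nonneg hXe fun x hx =>
      div_nonneg (abs_nonneg _) ((Real.exp_pos 1).trans_le hx.1).le
  rw [dist_zero_right, Real.norm_eq_abs, abs_of_nonneg (div_nonneg h3 (by linarith)),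
    div_lt_iff₀ (by linarith), ← intervalIntegral.integral_add_adjacent_intervals i1
      (i1.symm.trans i2)]
  have h4 : ∫ x in x₀..X, |f x| / x ≤ ε / 2 * (Real.log X - Real.log x₀) := by
    have i3 : IntervalIntegrable (fun x : ℝ => ε / 2 / x) volume x₀ X :=
      ((BM.const (ε / 2)).li.div x₀ he).symm.trans ((BM.const (ε / 2)).li.div X hXe)
    have e1 : ∫ x in x₀..X, ε / 2 / x = ε / 2 * (Real.log X - Real.log x₀) := by
      have : (fun x : ℝ => ε / 2 / x) = fun x : ℝ => ε / 2 * x⁻¹ := by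
        funext x
        rw [div_eq_mul_inv]
      rw [this, intervalIntegral.integral_const_mul,
        integral_inv_of_pos ((Real.exp_pos 1).trans_le he) ((Real.exp_pos 1).trans_le hXe),
        Real.log_div ((Real.exp_pos 1).trans_le hXe).ne' ((Real.exp_pos 1).trans_le he).ne']
    rw [← e1]
    refine intervalIntegral.integral_mono_on hX (i1.symm.trans i2) i3 fun x hx => ?_
    exact div_le_div_of_nonneg_right (hx₀ x hx.1).1 ((Real.exp_pos 1).trans_le (he.trans hx.1)).le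
  have h5 : 0 ≤ Real.log x₀ := by linarith [one_le_log he]
  have h6 : K ≤ |K| := le_abs_self K
  have h7 : |K| < ε / 2 * Real.log X := by
    have : 2 * |K| / ε < Real.log X := by linarith
    rw [div_lt_iff₀ hε] at this
    linarith
  have h8 : 0 ≤ ε / 2 * Real.log x₀ := by positivity
  linarith

theorem MeanZero.add {f g : ℝ → ℝ} (hf : BM f) (hg : BM g) (h1 : MeanZero f) (h2 : MeanZero g) :
    MeanZero fun x => f x + g x := by
  unfold MeanZero at *
  have h3 := Filter.Tendsto.add h1 h2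
  rw [add_zero] at h3
  refine tendsto_of_tendsto_of_tendsto_of_le_of_le' tendsto_const_nhds h3 ?_ ?_
  · filter_upwards [eventually_ge_atTop (Real.exp 1)] with X hX
    refine div_nonneg (intervalIntegral.integral_nonneg hX fun x hx =>
      div_nonneg (abs_nonneg _) ((Real.exp_pos 1).trans_le hx.1).le) ?_
    linarith [one_le_log hX]
  · filter_upwards [eventually_ge_atTop (Real.exp 1)] with X hX
    have i1 := hf.li.abs.div X hX
    have i2 := hg.li.abs.div X hX
    have i3 := (hf.add hg).li.abs.div X hX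
    rw [← add_div, ← intervalIntegral.integral_add i1 i2]
    refine div_le_div_of_nonneg_right ?_ (by linarith [one_le_log hX])
    refine intervalIntegral.integral_mono_on hX i3 (i1.add i2) fun x hx => ?_
    rw [← add_div]
    exact div_le_div_of_nonneg_right (abs_add_le _ _) ((Real.exp_pos 1).trans_le hx.1).le

/-- a perturbation which tends to zero -/
theorem meanZero_congr {f g : ℝ → ℝ} (hf : BM f) (hg : BM g)
    (h : Tendsto (fun x => f x - g x) atTop (𝓝 0)) : MeanZero f ↔ MeanZero g := by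
  have key : ∀ {f g : ℝ → ℝ}, BM f → BM g → Tendsto (fun x => f x - g x) atTop (𝓝 0) →
      MeanZero g → MeanZero f := by
    intro f g hf hg h h1
    have h2 := MeanZero.add hg (hf.sub hg) h1 (meanZero_of_tendsto (hf.sub hg) h)
    simpa only [add_sub_cancel] using h2
  refine ⟨key hg hf ?_, key hf hg h⟩
  have := h.neg
  simpa only [neg_sub, neg_zero] using this

/-! ### the data -/

theorem mh_of_mc {X : Type} {d : ℕ} {N : X → ℕ} {α : X → Fin d → ℂ} {Ψ G₀ : ℂ → ℂ} {κ : ℕ} {η C : ℝ}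
    (H : Mc N α Ψ G₀ 0 κ η C) : Mh N α G₀ 0 where
  E := H.E
  hreal := H.hreal
  hG := fun s hs => H.hG s (by linarith [H.hη])
  h0 := H.ana
  hL := fun s hs => by
    have hs0 : s ≠ 0 := by
      rintro rfl
      rw [Complex.zero_re] at hs
      linarith
    rw [H.hΨ s (by linarith [H.hη]) hs0, H.hL s hs]

variable {a b : ℤ} {F : ℂ → ℂ} {N : ℕ} [NeZero N]
  {f : CuspForm (Gamma0 N : Subgroup (GL (Fin 2) ℝ)) 2}

theorem close_ec (a b : ℤ) : ∃ M : ℝ, ∀ x : ℝ, Real.exp 1 ≤ x →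
    |Real.log (bsdStar a b x) + Pl (nQ a b) (alQ a b) x| ≤ M := by
  obtain ⟨K, hK⟩ := star_close a b
  refine ⟨|K|, fun x hx => (hK x hx).trans ?_⟩
  have hx1 : 1 ≤ x := by linarith [Real.add_one_le_exp 1]
  have h1 : x ^ (-(1 / 12 : ℝ)) ≤ 1 := Real.rpow_le_one_of_one_le_of_nonpos hx1 (by norm_num)
  have h2 : 0 ≤ x ^ (-(1 / 12 : ℝ)) := Real.rpow_nonneg (by linarith) _
  calc K * x ^ (-(1 / 12 : ℝ)) ≤ |K| * x ^ (-(1 / 12 : ℝ)) :=
        mul_le_mul_of_nonneg_right (le_abs_self K) h2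
    _ ≤ |K| * 1 := mul_le_mul_of_nonneg_left h1 (abs_nonneg K)
    _ = |K| := mul_one _

/-- the data -/
theorem pack_ec (hΔ : 4 * a ^ 3 + 27 * b ^ 2 ≠ 0) (hF : IsLSeries a b F) (hf : IsNewformOf a b N f) :
    ∃ p : ℕ, analyticOrderAt F 1 = p ∧
      G.Pack (nQ a b) (alQ a b) (fun x => Real.log (bsdStar a b x)) (fun s => F (1 + s)) p (mult F)
        (LeadingRH F) (devStar a b) := by
  obtain ⟨C₀, κ, hg⟩ := growth_F hΔ hF (hecke hf) fun p hp => hf.points p hp
  have H := curve_mc hF (by norm_num : (0 : ℝ) < 1 / 8) hg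
  obtain ⟨p, hp⟩ := Pool.Agent.W189.ML.order_finite_all hF 1
  have hz : (∀ s : ℂ, 0 < s.re → F (1 + s) ≠ 0) ↔ NoZeros F := by
    refine ⟨fun h s hs => ?_, fun h s hs => h _ (by simpa using hs)⟩
    have := h (s - 1) (by simpa using hs)
    rwa [add_sub_cancel] at this
  refine ⟨p, hp, mh_of_mc H, bm_star a b, close_ec a b,
    (Pool.Agent.H21.RD.order_shiftC (hF.1.analyticAt 1) p).2 hp, fun ρ A hA => ?_,
    fun ρ A hA x hx => ?_, ?_, fun h => ?_⟩
  · obtain ⟨⟨t, r⟩, -⟩ := Pool.Agent.Results.MP_92892c_nt.ExactMeanSquareRational.result a b hΔ F hF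
      N f hf ρ A hA
    have hW : BM fun x => Real.log x * devStar a b ρ A x := bm_log.mul (bm_devStar a b hA)
    refine ⟨hW, t.out 0 1, fun h => ?_⟩
    have h2 : SquareLaw F (devStar a b ρ A) := (t.out 0 2).1 h
    exact Pool.Agent.Q5.AP.par_of_cm hW h2 (r h)
  · rw [devStar_eq hA hx]
    ring
  · rintro ρ A hA ⟨h1, r, h2, h3, h4⟩
    refine ⟨hz.2 h1, ?_⟩
    rw [h2]
    rw [hp] at h3
    exact_mod_cast h3.symm
  · obtain ⟨e, g, p', he, Q⟩ := H.cn
    have hord := (Pool.Agent.TH270.MS.mero_of Q.hg Q.hg0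
      (Pool.Agent.TH270.MS.local_form H.hη H.hΨ Q.near)).2
    have t1 := Pool.Agent.Q5.MS.order_real H (((p' : ℤ) - (0 : ℕ) : ℤ) : ℝ)
    have e1 := t1.out 0 1
    obtain ⟨A, hA, h1⟩ := e1.1 ⟨h, (p' : ℤ) - (0 : ℕ), rfl, hord⟩
    have t2 := Pool.Agent.Q5.MS.lead_real H (((p' : ℤ) - (0 : ℕ) : ℤ) : ℝ) hA
    have e2 := t2.out 1 0
    obtain ⟨-, m, hm, h3⟩ := e2.1 h1
    have hAc : (A : ℂ) ≠ 0 := by exact_mod_cast hA.ne'
    have hm' : m = (p' : ℤ) := by
      have : ((p' : ℤ) - (0 : ℕ) : ℤ) = m := by exact_mod_cast hm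
      rw [← this]
      simp
    rw [hm'] at h3
    simp only [zpow_natCast] at h3
    obtain ⟨h4, h5⟩ := (lim_iff hF hAc).1 h3
    have hpp : p' = p := by
      rw [hp] at h4
      exact_mod_cast h4.symm
    rw [hpp] at h4 h5
    exact ⟨A, hA, hz.1 h, p, rfl, h4, h5⟩

end Pool.Agent.H21.RH
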