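import Pool.Agent.H21.RH.Pack
import Pool.Agent.H21.RG.NF
import Pool.Agent.H21.L.R_pool_sql_team_seeded_2aa45f1a.Q5.NF.Half

/-!
# The data for Euler products over number fields with centre `1/2`
-/

set_option autoImplicit false

open MeasureTheory Filter Topology Set Complex NumberField IsDedekindDomain

namespace Pool.Agent.H21.RH

open Pool.Agent.Q5.NF (Roots IsL res product dev errN lead_exists dev_eq log_product)
open Pool.Agent.Q5.LI (RHH LeadH multH)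
open Pool.Agent.Q5.VA (NS)
open Pool.Agent.TH270.MS (Pl DvR)
open Pool.Agent.W5h26.ML (Mh)

variable {K : Type} [Field K] [NumberField K] {n : ℕ} {S : Finset (HeightOneSpectrum (𝓞 K))}
  {r : HeightOneSpectrum (𝓞 K) → Fin n → ℂ} {F : ℂ → ℂ}

theorem mh_nf (R : Roots S r) (hF : IsL S r F) :
    Mh (NS S) (res S r) (fun s => F (1 / 2 + s)) 0 :=
  Pool.Agent.H21.RG.nf_mh R (fun s hs => by
    obtain ⟨η, C, κ, hη, h⟩ := hF.1
    exact (h s (by linarith)).1) (hF.ana (by norm_num)) hF.2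

/-- two leading terms -/
theorem lead_unique {e f : ℕ} {a b : ℂ} (hb : b ≠ 0)
    (h1 : Tendsto (fun s : ℂ => F s / (s - 1 / 2) ^ e) (𝓝[≠] (1 / 2 : ℂ)) (𝓝 a))
    (h2 : Tendsto (fun s : ℂ => F s / (s - 1 / 2) ^ f) (𝓝[≠] (1 / 2 : ℂ)) (𝓝 b)) : e ≤ f := by
  by_contra hlt
  push Not at hlt
  have h4 : Tendsto (fun s : ℂ => (s - 1 / 2) ^ (e - f)) (𝓝[≠] (1 / 2 : ℂ)) (𝓝 0) := by
    have h5 : Continuous fun s : ℂ => (s - 1 / 2) ^ (e - f) := by fun_prop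
    have h6 := h5.tendsto (1 / 2)
    rw [sub_self, zero_pow (by omega)] at h6
    exact h6.mono_left nhdsWithin_le_nhds
  have h5 := h1.mul h4
  rw [mul_zero] at h5
  refine hb (tendsto_nhds_unique h2 (h5.congr' ?_))
  filter_upwards [self_mem_nhdsWithin] with s hs
  have hs0 : s - 1 / 2 ≠ 0 := sub_ne_zero.2 hs
  have e1 : (s - 1 / 2) ^ e = (s - 1 / 2) ^ f * (s - 1 / 2) ^ (e - f) := by
    rw [← pow_add]
    congr 1
    omega
  rw [e1, div_mul_eq_mul_div, mul_div_mul_right _ _ (pow_ne_zero (e - f) hs0)]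

/-- the leading coefficient -/
theorem order_lead (hF : AnalyticAt ℂ F (1 / 2)) {e : ℕ} (h : analyticOrderAt F (1 / 2) = e) :
    ∃ c : ℂ, c ≠ 0 ∧ Tendsto (fun s : ℂ => F s / (s - 1 / 2) ^ e) (𝓝[≠] (1 / 2 : ℂ)) (𝓝 c) := by
  obtain ⟨g, hg, hg0, hg1⟩ := (hF.analyticOrderAt_eq_natCast).1 h
  refine ⟨g (1 / 2), hg0, ?_⟩
  have h1 : Tendsto g (𝓝[≠] (1 / 2 : ℂ)) (𝓝 (g (1 / 2))) :=
    hg.continuousAt.tendsto.mono_left nhdsWithin_le_nhds
  refine h1.congr' ?_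
  filter_upwards [nhdsWithin_le_nhds hg1, self_mem_nhdsWithin] with s h2 h3
  have h4 : s - 1 / 2 ≠ 0 := sub_ne_zero.2 h3
  rw [h2, smul_eq_mul, mul_div_cancel_left₀ _ (pow_ne_zero _ h4)]

theorem lead_eq (hF : AnalyticAt ℂ F (1 / 2)) {p : ℕ} (h : analyticOrderAt F (1 / 2) = p) {ρ A : ℝ}
    (hA : 0 < A) (hL : LeadH F ρ A) : ρ = p := by
  obtain ⟨c, hc, h1⟩ := order_lead hF h
  obtain ⟨e, he, h2⟩ := hL
  have hA' : (A : ℂ) ≠ 0 := by exact_mod_cast hA.ne'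
  rw [he, le_antisymm (lead_unique hc h2 h1) (lead_unique hA' h1 h2)]

/-- the data -/
theorem pack_nf (R : Roots S r) (hF : IsL S r F) : ∃ p : ℕ, analyticOrderAt F (1 / 2) = p ∧
    Pack (NS S) (res S r) (fun s => F (1 / 2 + s)) p (multH F) (fun ρ A => RHH F ∧ LeadH F ρ A)
      (dev S r) := by
  have H := mh_nf R hF
  obtain ⟨e₀, g, p, -, hp, -⟩ := H.hy
  have hana : AnalyticAt ℂ F (1 / 2) := hF.ana (by norm_num)
  have hp' : analyticOrderAt F (1 / 2) = p := (Pool.Agent.H21.RD.order_shiftC hana p).1 hp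
  have hz : (∀ s : ℂ, 0 < s.re → F (1 / 2 + s) ≠ 0) ↔ RHH F := by
    have h1 := Q5.VA.zeros_shiftC F (1 / 2 : ℝ)
    push_cast at h1
    exact h1
  refine ⟨p, hp', H, hp, fun ρ A hA => errN R hF hA, fun ρ A hA x hx => ?_, ?_, fun h => ?_⟩
  · rw [dev_eq hA hx]
    unfold DvR
    ring
  · rintro ρ A hA ⟨h1, h2⟩
    exact ⟨hz.2 h1, lead_eq hana hp' hA h2⟩
  · obtain ⟨e, A, hA, h1⟩ := lead_exists R hF (hz.1 h)
    refine ⟨A, hA, hz.1 h, ?_⟩
    rw [← lead_eq hana hp' hA h1]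
    exact h1

end Pool.Agent.H21.RH
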