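import Pool.Agent.H21.RH.An
import Pool.Agent.H21.RD.Sys
import Pool.Agent.H21.L.R_pool_sql_team_seeded_2aa45f1a.Q5.MS.Window2

/-!
# One law for the product of real powers of several Euler products: the error term
-/

set_option autoImplicit false

open MeasureTheory Filter Topology Set Complex

namespace Pool.Agent.H21.RH

open Pool.Agent.TH270.MS (BM LI one_le_log Pl)
open Pool.Agent.TH942.ES (Sys)
open Pool.Agent.Q5.BP (BSq bm_log)
open Pool.Agent.Q5.AP (Par cut cut_of cut_le cm cm_zero)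
open Pool.Agent.Q5.DC
open Pool.Agent.Q5.MS (bm_pl')
open Pool.Agent.Q5.OM (bm_congr)
open Pool.Agent.W5h26.ML (Law law_abs law_iff_of_close Mh LP lp_pl)
open Pool.Agent.H21.RC (mult RR)
open Pool.Agent.H21.RD (devW LW devW_bm bm_sum sys_both sys_upper indep_sys indep_nat)

/-- the data of one Euler product: `L ρ A` says that there are no zeros with `Re s > 0`, that the order at
`0` is `ρ` and the leading coefficient is `A`; `δ ρ A` is the error term -/
structure Pack {X : Type} {d : ℕ} (N : X → ℕ) (α : X → Fin d → ℂ) (G₀ : ℂ → ℂ) (p : ℕ) (m : ℝ → ℕ)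
    (L : ℝ → ℝ → Prop) (δ : ℝ → ℝ → ℝ → ℝ) : Prop where
  mh : Mh N α G₀ 0
  order : analyticOrderAt G₀ 0 = p
  err : ∀ ρ A : ℝ, 0 < A → BM (fun x => Real.log x * δ ρ A x) ∧ (L ρ A ↔ BSq (δ ρ A)) ∧
    (L ρ A → ∃ V : ℝ, HasSum (fun t : ℝ => ((m t : ℝ) / t) ^ 2) V ∧
      Par (fun u => (cut (fun x => Real.log x * δ ρ A x) u : ℂ)) (cm m) V)
  dev : ∀ ρ A : ℝ, 0 < A → ∀ x : ℝ, Real.exp 1 ≤ x → δ ρ A x =
    -Pl N α x + Real.log A - ρ * (Real.eulerMascheroniConstant + Real.log (Real.log x))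
  rh : ∀ ρ A : ℝ, 0 < A → L ρ A → (∀ s : ℂ, 0 < s.re → G₀ s ≠ 0) ∧ ρ = p
  lead : (∀ s : ℂ, 0 < s.re → G₀ s ≠ 0) → ∃ A : ℝ, 0 < A ∧ L p A

variable {ι : Type} [Fintype ι] {X : ι → Type} {d : ι → ℕ} {N : ∀ i, X i → ℕ}
  {α : ∀ i, X i → Fin (d i) → ℂ} {G₀ : ι → ℂ → ℂ} {p : ι → ℕ} {m : ι → ℝ → ℕ}
  {L : ι → ℝ → ℝ → Prop} {δ : ι → ℝ → ℝ → ℝ → ℝ} {w : ι → ℝ} {c : ι → ℝ} {ρ A : ℝ} {D : ℝ → ℝ}

/-- `D` is the error term of the product of the powers -/
def IsD (N : ∀ i, X i → ℕ) (α : ∀ i, X i → Fin (d i) → ℂ) (w : ι → ℝ) (ρ A : ℝ) (D : ℝ → ℝ) : Prop :=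
  ∀ x : ℝ, Real.exp 1 ≤ x → D x = ∑ i, w i * -Pl (N i) (α i) x + Real.log A -
    ρ * (Real.eulerMascheroniConstant + Real.log (Real.log x))

theorem d_bm (H : ∀ i, Sys (N i) (α i)) (hD : IsD N α w ρ A D) : BM D := by
  refine bm_congr (f := fun x => ∑ i, w i * -Pl (N i) (α i) x + Real.log A -
    ρ * (Real.eulerMascheroniConstant + Real.log (Real.log x))) ?_ fun x hx => (hD x hx).symm
  exact ((bm_sum _ fun i _ => (BM.const (w i)).mul (bm_pl' (H i)).neg).add (BM.const _)).sub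
    ((BM.const ρ).mul ((BM.const _).add BM.loglog))

theorem d_close (H : ∀ i, Sys (N i) (α i)) (hD : IsD N α w ρ A D) :
    ∃ M : ℝ, ∀ y : ℝ, Real.exp 1 ≤ y → |D y - devW w N α ρ y| ≤ M := by
  choose M hM using fun i => lp_pl (H i)
  refine ⟨∑ i, |w i| * M i + |Real.log A - ρ * Real.eulerMascheroniConstant|, fun y hy => ?_⟩
  have hy1 : 1 ≤ y := by linarith [Real.add_one_le_exp 1]
  have h1 : D y - devW w N α ρ y = -∑ i, w i * (LP (N i) (α i) y + Pl (N i) (α i) y) +
      (Real.log A - ρ * Real.eulerMascheroniConstant) := by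
    rw [hD y hy]
    unfold devW LW
    have : ∑ i, w i * (LP (N i) (α i) y + Pl (N i) (α i) y) =
        ∑ i, w i * LP (N i) (α i) y - ∑ i, w i * -Pl (N i) (α i) y := by
      rw [← Finset.sum_sub_distrib]
      exact Finset.sum_congr rfl fun i _ => by ring
    rw [this]
    ring
  rw [h1]
  refine (abs_add_le _ _).trans (add_le_add ?_ le_rfl)
  rw [abs_neg]
  refine (Finset.abs_sum_le_sum_abs _ _).trans (Finset.sum_le_sum fun i _ => ?_)
  rw [abs_mul]
  exact mul_le_mul_of_nonneg_left (hM i y hy1) (abs_nonneg _)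

/-- the mean law for `D` -/
theorem law_devW (H : ∀ i, Sys (N i) (α i)) (hD : IsD N α w ρ A D) (h : Law fun y => |D y|) :
    Law fun y => |devW w N α ρ y| := by
  obtain ⟨M, hM⟩ := d_close H hD
  have b1 := d_bm H hD
  have b2 := devW_bm (w := w) H ρ
  obtain ⟨l1, l2⟩ := (law_abs b1).1 h
  refine (law_abs b2).2 ⟨(law_iff_of_close b1 b2 hM).1 l1, ?_⟩
  refine (law_iff_of_close (M := M) b1.neg b2.neg fun y hy => ?_).1 l2
  have := hM y hy
  rwa [neg_sub_neg, abs_sub_comm]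

/-- the error term in terms of the individual error terms -/
theorem d_lin (P : ∀ i, Pack (N i) (α i) (G₀ i) (p i) (m i) (L i) (δ i)) (hD : IsD N α w ρ A D)
    (hc : ∀ i, 0 < c i) (hρ : ρ = ∑ i, w i * p i) {x : ℝ} (hx : Real.exp 1 ≤ x) :
    D x = ∑ i, w i * δ i (p i) (c i) x + (Real.log A - ∑ i, w i * Real.log (c i)) := by
  have h1 : ∑ i, w i * δ i (p i) (c i) x = ∑ i, w i * -Pl (N i) (α i) x +
      ∑ i, w i * Real.log (c i) -
      (∑ i, w i * p i) * (Real.eulerMascheroniConstant + Real.log (Real.log x)) := by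
    rw [Finset.sum_mul, ← Finset.sum_add_distrib, ← Finset.sum_sub_distrib]
    refine Finset.sum_congr rfl fun i _ => ?_
    rw [(P i).dev _ _ (hc i) x hx]
    ring
  rw [hD x hx, h1, ← hρ]
  ring

/-- the linear combination of the error terms has the limit law -/
theorem lin_law (P : ∀ i, Pack (N i) (α i) (G₀ i) (p i) (m i) (L i) (δ i)) (w : ι → ℝ)
    (hc : ∀ i, 0 < c i ∧ L i (p i) (c i)) :
    BM (fun x => Real.log x * ∑ i, w i * δ i (p i) (c i) x) ∧
      LawR (fun t => ∑ i, w i * (m i t : ℝ)) (fun x => ∑ i, w i * δ i (p i) (c i) x) := by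
  have hW : ∀ i, BM fun x => Real.log x * δ i (p i) (c i) x := fun i => ((P i).err _ _ (hc i).1).1
  choose V hV hP using fun i => ((P i).err _ _ (hc i).1).2.2 (hc i).2
  obtain ⟨U, hU⟩ := par_lin' hP w Finset.univ
  have e0 : (fun x => Real.log x * ∑ i, w i * δ i (p i) (c i) x) =
      fun x => ∑ i, w i * (Real.log x * δ i (p i) (c i) x) := by
    funext x
    rw [Finset.mul_sum]
    exact Finset.sum_congr rfl fun i _ => by ring
  have hb : BM (fun x => Real.log x * ∑ i, w i * δ i (p i) (c i) x) := by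
    rw [e0]
    exact bm_sum _ fun i _ => (BM.const (w i)).mul (hW i)
  refine ⟨hb, lawR_of_par hb (V := U) (a := fun t => ∑ i, (w i : ℂ) * cm (m i) t) ?_ ?_ ?_⟩
  · have e1 : (fun u => (cut (fun x => Real.log x * ∑ i, w i * δ i (p i) (c i) x) u : ℂ)) =
        fun u => ((∑ i, w i * cut (fun x => Real.log x * δ i (p i) (c i) x) u : ℝ) : ℂ) := by
      funext u
      congr 1
      rcases le_or_gt u 1 with hu | hu
      · rw [cut_le _ hu]
        exact (Finset.sum_eq_zero fun i _ => by rw [cut_le _ hu, mul_zero]).symm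
      · rw [cut_of _ hu, Finset.mul_sum]
        refine Finset.sum_congr rfl fun i _ => ?_
        rw [cut_of _ hu]
        ring
    rw [e1]
    exact hU
  · exact Finset.sum_eq_zero fun i _ => by rw [cm_zero, mul_zero]
  · intro t
    have h1 : ∑ i, (w i : ℂ) * cm (m i) t = -(((∑ i, w i * (m i t : ℝ) : ℝ) : ℂ) * I / t) := by
      push_cast
      rw [Finset.sum_mul, Finset.sum_div, ← Finset.sum_neg_distrib]
      refine Finset.sum_congr rfl fun i _ => ?_
      unfold cm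
      ring
    rw [h1, norm_neg, norm_div, norm_mul, Complex.norm_I, mul_one, Complex.norm_real,
      Complex.norm_real, div_pow, Real.norm_eq_abs, Real.norm_eq_abs, sq_abs, sq_abs, div_pow]

theorem lin_mean (P : ∀ i, Pack (N i) (α i) (G₀ i) (p i) (m i) (L i) (δ i)) (w : ι → ℝ)
    (hc : ∀ i, 0 < c i ∧ L i (p i) (c i)) :
    BM (fun x => ∑ i, w i * δ i (p i) (c i) x) ∧
      MeanZero (fun x => ∑ i, w i * δ i (p i) (c i) x) := by
  have hb : BM (fun x => ∑ i, w i * δ i (p i) (c i) x) := by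
    have hD : IsD N α w (∑ i, w i * p i) (Real.exp (∑ i, w i * Real.log (c i)))
        (fun x => ∑ i, w i * δ i (p i) (c i) x) := by
      intro x hx
      rw [Real.log_exp, Finset.sum_mul, ← Finset.sum_add_distrib, ← Finset.sum_sub_distrib]
      refine Finset.sum_congr rfl fun i _ => ?_
      rw [(P i).dev _ _ (hc i).1 x hx]
      ring
    exact d_bm (fun i => (P i).mh.E) hD
  exact ⟨hb, meanZero_of_bsq hb (bsq_of_has (lawR_has (lin_law P w hc).2))⟩

/-- **One law, under the Riemann hypothesis, for arbitrary real weights.** -/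
theorem pack_lin (P : ∀ i, Pack (N i) (α i) (G₀ i) (p i) (m i) (L i) (δ i))
    (hD : IsD N α w ρ A D) (hc : ∀ i, 0 < c i ∧ L i (p i) (c i)) :
    List.TFAE [ρ = ∑ i, w i * p i ∧ Real.log A = ∑ i, w i * Real.log (c i), MeanZero D, BSq D,
      HasLimitLaw D, LawR (fun t => ∑ i, w i * (m i t : ℝ)) D] := by
  have hE : ∀ i, Sys (N i) (α i) := fun i => (P i).mh.E
  have hbD := d_bm hE hD
  obtain ⟨hb, hm⟩ := lin_mean P w hc
  tfae_have 5 → 4 := lawR_has
  tfae_have 4 → 3 := bsq_of_has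
  tfae_have 3 → 2 := meanZero_of_bsq hbD
  tfae_have 2 → 1 := by
    intro h
    have h1 := sys_both (fun i => (P i).mh) (fun i => (P i).order)
      (law_devW hE hD (law_of_meanZero h))
    have hρ : ρ = ∑ i, w i * p i := h1.2.symm
    refine ⟨hρ, ?_⟩
    have := const_zero hbD hb (fun x hx => d_lin P hD (fun i => (hc i).1) hρ hx) h hm
    linarith
  tfae_have 1 → 5 := by
    rintro ⟨hρ, hA⟩
    obtain ⟨ν, ⟨h1, h1'⟩, h2, h3, h4, h5, h6⟩ := (lin_law P w hc).2
    have e : ∀ x : ℝ, Real.exp 1 ≤ x → D x = ∑ i, w i * δ i (p i) (c i) x := fun x hx => by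
      rw [d_lin P hD (fun i => (hc i).1) hρ hx, hA]
      ring
    have hint : ∀ (φ : ℝ → ℝ → ℝ) (X : ℝ), Real.exp 1 ≤ X → ∫ x in Real.exp 1..X, φ x (D x) =
        ∫ x in Real.exp 1..X, φ x (∑ i, w i * δ i (p i) (c i) x) := by
      intro φ X hX
      refine intervalIntegral.integral_congr fun x hx => ?_
      rw [uIcc_of_le hX] at hx
      show φ x (D x) = φ x (∑ i, w i * δ i (p i) (c i) x)
      rw [e x hx.1]
    have hlaw : ∀ ν' : Measure ℝ, IsLimitLaw D ν' ↔
        IsLimitLaw (fun x => ∑ i, w i * δ i (p i) (c i) x) ν' := by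
      intro ν'
      unfold IsLimitLaw
      refine and_congr_right fun _ => forall_congr' fun φ => forall_congr' fun _ =>
        forall_congr' fun _ => ?_
      refine tendsto_congr' ?_
      filter_upwards [eventually_ge_atTop (Real.exp 1)] with X hX
      rw [hint (fun x y => φ (Real.log x * y) / x) X hX]
    refine ⟨ν, ⟨(hlaw ν).2 h1, fun ν' h => h1' ν' ((hlaw ν').1 h)⟩, h2, h3, h4, ?_, fun t ht => ?_⟩
    · refine h5.congr' ?_
      filter_upwards [eventually_ge_atTop (Real.exp 1)] with X hX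
      rw [hint (fun x y => (Real.log x * y) ^ 2 / x) X hX]
    · refine (h6 t ht).congr' ?_
      filter_upwards [eventually_ge_atTop (Real.exp 1)] with X hX
      unfold shareAbove
      congr 1
      refine intervalIntegral.integral_congr fun x hx => ?_
      rw [uIcc_of_le hX] at hx
      simp only
      rw [e x hx.1]
  tfae_finish

/-- **One law determines the joint distribution.** -/
theorem pack_indep (P : ∀ i, Pack (N i) (α i) (G₀ i) (p i) (m i) (L i) (δ i))
    (hD : IsD N α w ρ A D) (hw : LinearIndependent ℚ w) :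
    List.TFAE [∃ c : ι → ℝ, (∀ i, 0 < c i ∧ L i (p i) (c i)) ∧ ρ = ∑ i, w i * p i ∧
        Real.log A = ∑ i, w i * Real.log (c i),
      MeanZero D, BSq D, HasLimitLaw D, LawR (fun t => ∑ i, w i * (m i t : ℝ)) D,
      ∃ c : ι → ℝ, (∀ i, 0 < c i) ∧ ρ = ∑ i, w i * p i ∧ Real.log A = ∑ i, w i * Real.log (c i) ∧
        JointLaw m (fun i => δ i (p i) (c i))] := by
  have hE : ∀ i, Sys (N i) (α i) := fun i => (P i).mh.E
  tfae_have 1 → 5 := by
    rintro ⟨c, hc, h⟩
    exact ((pack_lin P hD hc).out 0 4).1 h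
  tfae_have 5 → 4 := lawR_has
  tfae_have 4 → 3 := bsq_of_has
  tfae_have 3 → 2 := meanZero_of_bsq (d_bm hE hD)
  tfae_have 2 → 1 := by
    intro h
    have h1 := sys_both (fun i => (P i).mh) (fun i => (P i).order)
      (law_devW hE hD (law_of_meanZero h))
    have h2 : ∀ i, ∀ s : ℂ, 0 < s.re → G₀ i s ≠ 0 := fun i s hs =>
      indep_sys (fun i => (P i).mh) (fun i => (P i).order) hw hs (h1.1 s hs) i
    choose c hc using fun i => (P i).lead (h2 i)
    exact ⟨c, hc, ((pack_lin P hD hc).out 0 1).2 h⟩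
  have hj : ∀ c : ι → ℝ, (∀ i, 0 < c i) → ((∀ i, L i (p i) (c i)) ↔
      JointLaw m (fun i => δ i (p i) (c i))) := fun c hc =>
    (joint_tfae (P := fun i => L i (p i) (c i)) (m := m) (δ := fun i => δ i (p i) (c i))
      (fun i => ((P i).err _ _ (hc i)).1) (fun i => ((P i).err _ _ (hc i)).2.1)
      (fun i => ((P i).err _ _ (hc i)).2.2)).out 0 3
  tfae_have 1 ↔ 6 := by
    refine exists_congr fun c => ?_
    constructor
    · rintro ⟨h1, h2, h3⟩
      exact ⟨fun i => (h1 i).1, h2, h3, (hj c fun i => (h1 i).1).1 fun i => (h1 i).2⟩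
    · rintro ⟨h1, h2, h3, h4⟩
      exact ⟨fun i => ⟨h1 i, (hj c h1).2 h4 i⟩, h2, h3⟩
  tfae_finish

/-- the upper law for `D` -/
theorem law_devW_upper (H : ∀ i, Sys (N i) (α i)) (hD : IsD N α w ρ A D)
    (h : Law fun y => max (D y) 0) : Law fun y => max (devW w N α ρ y) 0 := by
  obtain ⟨M, hM⟩ := d_close H hD
  exact (law_iff_of_close (d_bm H hD) (devW_bm (w := w) H ρ) hM).1 h

/-- the coefficients are bounded by a one-sided bound -/
theorem coeff_bound (P : ∀ i, Pack (N i) (α i) (G₀ i) (p i) (m i) (L i) (δ i))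
    (hD : IsD N α w ρ A D) (hc : ∀ i, 0 < c i ∧ L i (p i) (c i))
    (hρ : ρ = ∑ i, w i * p i) (hA : Real.log A = ∑ i, w i * Real.log (c i)) {B : ℝ}
    (hB : ∀ᶠ x : ℝ in atTop, Real.log x * D x ≤ B) {t : ℝ} (ht : t ≠ 0) :
    |∑ i, w i * (m i t : ℝ)| / |t| ≤ B := by
  have hW : ∀ i, BM fun x => Real.log x * δ i (p i) (c i) x := fun i => ((P i).err _ _ (hc i).1).1
  choose V hV hP using fun i => ((P i).err _ _ (hc i).1).2.2 (hc i).2
  obtain ⟨U, hU⟩ := par_lin' hP w Finset.univ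
  have hb : BM (fun x => ∑ i, w i * (Real.log x * δ i (p i) (c i) x)) :=
    bm_sum _ fun i _ => (BM.const (w i)).mul (hW i)
  have e1 : (fun u => (cut (fun x => ∑ i, w i * (Real.log x * δ i (p i) (c i) x)) u : ℂ)) =
      fun u => ((∑ i, w i * cut (fun x => Real.log x * δ i (p i) (c i) x) u : ℝ) : ℂ) := by
    funext u
    congr 1
    rcases le_or_gt u 1 with hu | hu
    · rw [cut_le _ hu]
      exact (Finset.sum_eq_zero fun i _ => by rw [cut_le _ hu, mul_zero]).symm
    · rw [cut_of _ hu]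
      refine Finset.sum_congr rfl fun i _ => ?_
      rw [cut_of _ hu]
  have h1 : ‖∑ i, (w i : ℂ) * cm (m i) t‖ ≤ B := by
    refine osc_le (a := fun t => ∑ i, (w i : ℂ) * cm (m i) t) (V := U) hb (by rw [e1]; exact hU)
      (Finset.sum_eq_zero fun i _ => by rw [cm_zero, mul_zero]) ht ?_
    filter_upwards [hB, eventually_ge_atTop (Real.exp 1)] with x hx1 hx2
    refine le_trans (le_of_eq ?_) hx1
    rw [d_lin P hD (fun i => (hc i).1) hρ hx2, hA, sub_self, add_zero, Finset.mul_sum]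
    exact Finset.sum_congr rfl fun i _ => by ring
  have h2 : ∑ i, (w i : ℂ) * cm (m i) t = -(((∑ i, w i * (m i t : ℝ) : ℝ) : ℂ) * I / t) := by
    push_cast
    rw [Finset.sum_mul, Finset.sum_div, ← Finset.sum_neg_distrib]
    refine Finset.sum_congr rfl fun i _ => ?_
    unfold cm
    ring
  rwa [h2, norm_neg, norm_div, norm_mul, Complex.norm_I, mul_one, Complex.norm_real,
    Complex.norm_real, Real.norm_eq_abs, Real.norm_eq_abs] at h1

/-- **One-sided bounds.** -/
theorem pack_upper (P : ∀ i, Pack (N i) (α i) (G₀ i) (p i) (m i) (L i) (δ i))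
    (hD : IsD N α w ρ A D) (hsg : ∀ x : ℝ, 0 < x → 0 ≤ mult w G₀ x) {B : ℝ}
    (hB : ∀ᶠ x : ℝ in atTop, Real.log x * D x ≤ B) :
    (∀ s : ℂ, 0 < s.re → mult w G₀ s = 0) ∧ ∑ i, w i * (p i : ℝ) ≤ ρ :=
  sys_upper (fun i => (P i).mh) (fun i => (P i).order)
    (law_devW_upper (fun i => (P i).mh.E) hD (law_of_upper (d_bm (fun i => (P i).mh.E) hD) hB)) hsg

end Pool.Agent.H21.RH
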